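import Pool.Agent.Lib_helper41.LSP.Defs
import Pool.Agent.Lib_helper31.LSP.DefsO
import Pool.Agent.Lib_helper98.GA.Defs
import Pool.Agent.Lib_helper73.Var.Block

/-!
# Every prime level of a good range. Definitions.

The mollifier is `y0 - t ∑_p θ_p T_p y`, where `T_p` is multiplication by `λ(p)/√p`.
-/

set_option autoImplicit false

namespace Pool.Agent.LSP

open Pool.Agent.LEV Pool.Agent.LVB Pool.Agent.KSL
open Pool.Agent.FG61 (mu phi cc ff AA Lam)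
open Pool.Agent.GA (Prm)
open Complex MeasureTheory Filter Topology UpperHalfPlane ModularGroup ProbabilityTheory
open scoped MatrixGroups Modular ENNReal ModularForm ComplexConjugate ContDiff

/-! ## Vectors -/

/-- the coefficients of `λ(p)/√p` times a mollifier -/
noncomputable def Tp (p : ℕ) (y : ℕ → ℝ) (e : ℕ) : ℝ :=
  (if p ∣ e then y (e / p) else 0) + y (p * e) / p

/-- `∑ θ_p T_p y` -/
noncomputable def YT (P : Finset ℕ) (θ y : ℕ → ℝ) (e : ℕ) : ℝ := ∑ p ∈ P, θ p * Tp p y e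

/-- the coefficients of the product of two mollifiers -/
noncomputable def CB (E : ℕ) (x y : ℕ → ℝ) (n : ℕ) : ℝ :=
  ∑ j ∈ Finset.Icc 1 E, (1 / (j : ℝ)) *
    ∑ p ∈ n.divisorsAntidiagonal, x (j * p.1) * y (j * p.2) / n

/-- the bilinear form of `OD` -/
noncomputable def ODB (ρ : ℝ → ℝ) (B E : ℕ) (x y : ℕ → ℝ) (N : ℕ) : ℝ :=
  LSPO.ODg (CB E x y) (GG ρ) (E ^ 2) (Gs B E) N

/-- the bilinear form of `sh` -/
noncomputable def shB (ρ : ℝ → ℝ) (T : ℝ) (E : ℕ) (x y : ℕ → ℝ) (N : ℕ) : ℝ :=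
  2 * Real.pi * (∫ s in Set.Ioi (yo T E), ∑' n : ℕ,
      (‖kh ρ ((n + 1) * s)‖ ^ 2 + ‖kh ρ (-((n + 1) * s))‖ ^ 2) *
        (WW E (wX E x) (n + 1) * WW E (wX E y) (n + 1))) +
    Real.pi * ∑ q ∈ Finset.Icc 1 E, phi q * (wX E x q * wX E y q) *
      (Cr ρ * (2 * Real.log (yo T E) + Real.log ((N : ℝ) * (q : ℝ) ^ 2)) + Cl ρ)

/-- the bilinear form of `QN` -/
noncomputable def QB (ρ : ℝ → ℝ) (T : ℝ) (B E : ℕ) (x y : ℕ → ℝ) (N : ℕ) : ℝ :=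
  shB ρ T E x y N + ODB ρ B E x y N

/-- the common bound for the supports -/
noncomputable def E2 (κ : ℝ) (X : ℕ) : ℕ := ⌊(X : ℝ) ^ (1 / 2 + 3 * κ)⌋₊

/-- the primes of the band -/
noncomputable def PB (κ v : ℝ) (X : ℕ) : Finset ℕ :=
  (Finset.Icc 1 ⌊2 * (X : ℝ) ^ (v + κ)⌋₊).filter (fun p => p.Prime ∧ (X : ℝ) ^ v / 2 ≤ p)

/-- the first mollifier, shorter than `√X` -/
noncomputable def y0 (κ₁ : ℝ) (X : ℕ) (a : ℕ → ℝ) : ℕ → ℝ := xX (zz X) (MM κ₁ X) 2 a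

/-- the second mollifier -/
noncomputable def y1 (κ v : ℝ) (X : ℕ) (a : ℕ → ℝ) : ℕ → ℝ := xX (zz X) (MM (v - κ) X) 2 a

/-- the mollifier -/
noncomputable def x2 (κ v κ₁ t : ℝ) (X : ℕ) (θ a : ℕ → ℝ) (e : ℕ) : ℝ :=
  y0 κ₁ X a e - t * YT (PB κ v X) θ (y1 κ v X a) e

/-- `W_m(x) = l Ph(m)` for smooth `m` -/
noncomputable def ell (κ v t : ℝ) (X : ℕ) (θ : ℕ → ℝ) : ℝ :=
  1 - t * ∑ p ∈ PB κ v X, θ p / p * (Real.log p / Real.log (MM (v - κ) X))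

/-! ## Off-diagonals -/

/-- the coefficients of the product with `∑ θ_p T_p` (without the terms of small size) -/
noncomputable def CY (P : Finset ℕ) (θ C : ℕ → ℝ) (n : ℕ) : ℝ :=
  ∑ p ∈ P, if p ∣ n then θ p / p * C (n / p) else 0

/-- `(1/c) ∑_l (1/l) hyp(log (c l) - log |y| / 2)` -/
noncomputable def wc (Dl c : ℕ) (y : ℝ) : ℝ :=
  (1 / (c : ℝ)) * ∑ l ∈ Finset.Icc 1 (Dl / c),
    (1 / (l : ℝ)) * LSPO.hyp (Real.log ((c * l : ℕ) : ℝ) - Real.log |y| / 2)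

/-- the part of the off-diagonal of conductor up to `R` -/
noncomputable def SMg (C : ℕ → ℝ) (G : ℝ → ℝ) (om : ℝ) (Q : ℕ) (S : Finset ℤ) (Dl R N : ℕ) : ℝ :=
  4 * Real.pi * ∑ n ∈ Finset.Icc 1 Q, C n *
    ∑ g ∈ S, tau g.natAbs * (LSPO.KK G om ((g : ℝ) * N / n) *
      ∑ c ∈ Finset.Icc 1 R, wc Dl c ((n : ℝ) - g * N) * cc c ((n : ℤ) - g * N).natAbs)

/-- the bound for the conductors -/
noncomputable def R2 (κ : ℝ) (X : ℕ) : ℕ := ⌊(X : ℝ) ^ (200 * κ)⌋₊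

/-- the width of the cut -/
noncomputable def om2 (κ : ℝ) (X : ℕ) : ℝ := (X : ℝ) ^ (-(30 * κ))

/-- bounded coefficients -/
structure CK2 (κ : ℝ) (X Q : ℕ) (C : ℕ → ℝ) : Prop where
  bdd : ∀ n, |C n| ≤ (X : ℝ) ^ (κ / 100) / n
  supp : ∀ n, C n ≠ 0 → n ≤ Q

/-! ## Characters -/

/-- the primitive characters of conductor up to `R`, with the trivial one (helper46's `PsiR`) -/
noncomputable def Chs (R : ℕ) : Finset (Σ q : ℕ, DirichletCharacter ℂ q) :=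
  (Finset.Icc 1 R).sigma Pool.Agent.Var73.Pr

/-- the mean value of `ψ̄(u) c_c(u m - g)` over units `u` -/
noncomputable def kap (c : ℕ) (ψ : Σ q : ℕ, DirichletCharacter ℂ q) (m : ℕ) (g : ℤ) : ℂ :=
  (1 / (phi c : ℂ)) * ∑ u ∈ RR c, conj (ψ.2 (u : ZMod ψ.1)) * ((cc c ((u : ℤ) * m - g).natAbs : ℝ) : ℂ)

/-- the kernel of the character `ψ` at the real points `s`, `Z` -/
noncomputable def PsiK (C : ℕ → ℝ) (G : ℝ → ℝ) (om : ℝ) (Q : ℕ) (S : Finset ℤ) (Dl R : ℕ)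
    (ψ : Σ q : ℕ, DirichletCharacter ℂ q) (s Z : ℝ) : ℂ :=
  4 * Real.pi * ∑ m ∈ Finset.Icc 1 Q, (C m : ℂ) * ∑ g ∈ S,
    ((tau g.natAbs * LSPO.KK G om ((g : ℝ) * Z / (s * m)) : ℝ) : ℂ) *
      ∑ c ∈ (Finset.Icc 1 R).filter (fun c => ψ.1 ∣ c),
        ((wc Dl c (s * m - g * Z) : ℝ) : ℂ) * kap c ψ m g

/-- the kernel of `ψ` with the parameters of `X` -/
noncomputable abbrev KerP (G : ℝ → ℝ) (B₀ : ℕ) (κ : ℝ) (X : ℕ) (C : ℕ → ℝ)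
    (ψ : Σ q : ℕ, DirichletCharacter ℂ q) (s Z : ℝ) : ℂ :=
  PsiK C G (om2 κ X) (E2 κ X ^ 2) (Gs B₀ (E2 κ X)) (2 * (B₀ + 1) * E2 κ X) (R2 κ X) ψ s Z

/-- the part of small conductor with the parameters of `X` -/
noncomputable abbrev SMP (G : ℝ → ℝ) (B₀ : ℕ) (κ : ℝ) (X : ℕ) (C : ℕ → ℝ) (N : ℕ) : ℝ :=
  SMg C G (om2 κ X) (E2 κ X ^ 2) (Gs B₀ (E2 κ X)) (2 * (B₀ + 1) * E2 κ X) (R2 κ X) N

/-! ## Windows -/

/-- the properties of the windows -/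
structure Win (κ v C : ℝ) (X J : ℕ) (dl : ℝ) (ε : (q : ℕ) → DirichletCharacter ℂ q → ℝ)
    (u : ℕ → ℕ → ℝ) : Prop where
  dl0 : 0 < dl
  dl1 : dl ≤ (X : ℝ) ^ (-(136 * κ))
  len : J * dl ≤ κ * Real.log X
  len' : κ * Real.log X ≤ (J + 1) * dl
  nonneg : ∀ j p, 0 ≤ u j p
  supp : ∀ j p, u j p ≠ 0 → j < J ∧ p.Prime ∧
    |Real.log p - (v * Real.log X + j * dl)| ≤ (X : ℝ) ^ (-(132 * κ)) ∧
    u j p ≤ (X : ℝ) ^ (136 * κ - v)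
  one : ∀ j, j < J → ∑ p ∈ PB κ v X, u j p = 1
  col : ∀ p, ∑ j ∈ Finset.range J, u j p ≤ C * Real.log p / (dl * p)
  eps : ∀ q χ, 0 ≤ ε q χ
  chr : ∀ j, j < J → ∀ q ∈ Finset.Icc 1 ⌊(X : ℝ) ^ (496 * κ)⌋₊, ∀ χ ∈ Prm q,
    ‖∑ p ∈ PB κ v X, ((u j p : ℝ) : ℂ) * χ (p : ZMod q)‖ ≤ ε q χ

/-- the centre of a window -/
noncomputable def Zj (v : ℝ) (X : ℕ) (dl : ℝ) (j : ℕ) : ℝ := (X : ℝ) ^ v * Real.exp (j * dl)

/-- the weights of the primes -/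
noncomputable def thW (J : ℕ) (m : ℕ → ℝ) (u : ℕ → ℕ → ℝ) (p : ℕ) : ℝ :=
  p * ∑ j ∈ Finset.range J, m j * u j p

/-- the weights of the primes for a function `θ` of pairs (window, prime) -/
noncomputable def thE (J : ℕ) (m : ℕ → ℝ) (u : ℕ → ℕ → ℝ) (θ : ℕ × ℕ → ℝ) (p : ℕ) : ℝ :=
  p * ∑ j ∈ Finset.range J, m j * u j p * θ (j, p)

end Pool.Agent.LSP
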