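import Pool.Agent.Lib_helper41.LSP2.Defs2

set_option autoImplicit false

namespace Pool.Agent.LSP

open Pool.Agent.FG61 (mu phi cc ff AA Lam)

/-- the properties of the coefficients used in the principal part -/
structure AdmB (κ : ℝ) (B B' X Q : ℕ) (C : ℕ → ℝ) : Prop extends CK2 κ X Q C where
  zero : ∑ n ∈ Finset.Icc 1 Q, C n * sg1 n = 0
  mob : ∀ c z₁ z₂ : ℕ, 1 ≤ c → (c : ℝ) ≤ (X : ℝ) ^ (20 * κ) → (X : ℝ) ^ (9 / 20 : ℝ) ≤ z₁ →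
    |∑ n ∈ Finset.Ioc z₁ z₂, C n * cc c n| ≤ tau c ^ B / Real.log X ^ B'

end Pool.Agent.LSP
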