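import Pool.Agent.Lib_helper41.LSP2.DefsB

/-! LSP2: the interfaces between the parts (statements to be proved). -/

set_option autoImplicit false

namespace Pool.Agent.LSP

open Pool.Agent.LEV Pool.Agent.LVB Pool.Agent.KSL
open Pool.Agent.FG61 (mu phi cc ff AA Lam)
open Pool.Agent.GA (Prm)
open Complex MeasureTheory Filter Topology UpperHalfPlane ModularGroup ProbabilityTheory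
open scoped MatrixGroups Modular ENNReal ModularForm ComplexConjugate ContDiff

/-! ## HK: the algebra (helper98) -/

/-- Hecke relation for the coefficients of a product -/
theorem cb_tp {E : ℕ} {x y : ℕ → ℝ} (hx : ∀ e, x e ≠ 0 → 1 ≤ e ∧ e ≤ E) {p : ℕ} (hp : p.Prime)
    {n : ℕ} (hn : 1 ≤ n) :
    CB E x (Tp p y) n = (if p ∣ n then CB E x y (n / p) / p else 0) + CB E x y (p * n) := sorry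

theorem cb_symm (E : ℕ) (x y : ℕ → ℝ) (n : ℕ) : CB E x y n = CB E y x n := sorry

/-- no off-diagonal for short vectors -/
theorem od_zero {T : ℝ} {ρ : ℝ → ℝ} (hρ : KerL T ρ) {B : ℕ} (hB : 1 + T ^ 2 ≤ (B : ℝ)) {E : ℕ}
    {x y : ℕ → ℝ} {N : ℕ} (h : ∀ n, CB E x y n ≠ 0 → n * B < N) : ODB ρ B E x y N = 0 := sorry

theorem od_cross {T : ℝ} {ρ : ℝ → ℝ} (hρ : KerL T ρ) {B : ℕ} (hB : 1 + T ^ 2 ≤ (B : ℝ)) {E : ℕ}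
    {x y : ℕ → ℝ} (hx : ∀ e, x e ≠ 0 → 1 ≤ e ∧ e ≤ E) {P : Finset ℕ} (hP : ∀ p ∈ P, p.Prime)
    (θ : ℕ → ℝ) {N : ℕ} (h : ∀ n, ∀ p ∈ P, CB E x y (p * n) ≠ 0 → n * B < N) :
    ODB ρ B E x (YT P θ y) N =
      LSPO.ODg (CY P θ (CB E x y)) (GG ρ) (E ^ 2) (Gs B E) N := sorry

theorem od_quad {T : ℝ} {ρ : ℝ → ℝ} (hρ : KerL T ρ) {B : ℕ} (hB : 1 + T ^ 2 ≤ (B : ℝ)) {E : ℕ}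
    {y : ℕ → ℝ} (hy : ∀ e, y e ≠ 0 → 1 ≤ e) {P : Finset ℕ} (hP : ∀ p ∈ P, p.Prime)
    (hy' : ∀ e, y e ≠ 0 → ∀ p ∈ P, p * e ≤ E)
    (θ : ℕ → ℝ) {N : ℕ} (h : ∀ n, CB E y y n ≠ 0 → ∀ p ∈ P, ∀ q ∈ P, q * n * B < p * N) :
    ODB ρ B E (YT P θ y) (YT P θ y) N =
      LSPO.ODg (CY P θ (CY P θ (CB E y y))) (GG ρ) (E ^ 2) (Gs B E) N := sorry

/-- `QN` is a quadratic form with polar form `QB` -/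
theorem qn_add {T : ℝ} {ρ : ℝ → ℝ} (hρ : KerL T ρ) (B : ℕ) {E : ℕ} (hE : 1 ≤ E) (x y : ℕ → ℝ)
    (s : ℝ) {N : ℕ} (hN : 1 ≤ N) :
    QN ρ T B E (fun e => x e + s * y e) N =
      QN ρ T B E x N + 2 * s * QB ρ T B E x y N + s ^ 2 * QN ρ T B E y N ∧
    sh ρ T E (fun e => x e + s * y e) N =
      sh ρ T E x N + 2 * s * shB ρ T E x y N + s ^ 2 * sh ρ T E y N ∧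
    OD ρ B E (fun e => x e + s * y e) N =
      OD ρ B E x N + 2 * s * ODB ρ B E x y N + s ^ 2 * OD ρ B E y N := sorry

/-- multiplication by `λ(p)/√p` -/
theorem mx_tp {E : ℕ} {y : ℕ → ℝ} {p : ℕ} (hp : p.Prime) (hy : ∀ e, y e ≠ 0 → 1 ≤ e ∧ p * e ≤ E)
    (la : ℕ → ℝ) : MX E (Tp p y) la = la p / Real.sqrt p * MX E y la := sorry

/-- positivity (from `geo_main`) -/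
theorem qn_nonneg {T : ℝ} {ρ : ℝ → ℝ} (hρ : KerL T ρ) {B₀ : ℕ} (hB : 1 + T ^ 2 ≤ (B₀ : ℝ)) :
    ∃ C : ℝ, 1 ≤ C ∧ ∀ (N : ℕ) [Fact N.Prime] (E : ℕ), 1 ≤ E → C * E ≤ N →
    ∀ x : ℕ → ℝ, (∀ e, x e ≠ 0 → 1 ≤ e ∧ e ≤ E) → ∑ e ∈ Finset.Icc 1 E, x e * sg1 e / e = 0 →
      0 ≤ QN ρ T B₀ E x N := sorry

/-- the supports, the zero mode -/
theorem y_supp {κ v κ₁ ε₂ : ℝ} (h0 : 0 < κ) (h1 : 1000 * κ ≤ v) (h2 : v ≤ 1 / 80) (h3 : 0 < κ₁)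
    (h4 : κ₁ ≤ κ) (h5 : 0 < ε₂) (h6 : ε₂ ≤ κ₁ / 1000) : ∃ X₀ : ℕ, ∀ X : ℕ, X₀ ≤ X →
    ∀ a : ℕ → ℝ, Sht (zz X) (KA ε₂ X) a →
    (∀ e, y0 κ₁ X a e ≠ 0 → 1 ≤ e ∧ (e : ℝ) ≤ (X : ℝ) ^ (1 / 2 - κ₁ + 2 * ε₂)) ∧
    (∀ e, y1 κ v X a e ≠ 0 → 1 ≤ e ∧ (e : ℝ) ≤ (X : ℝ) ^ (1 / 2 - v + κ + 2 * ε₂)) ∧
    (∑ e ∈ Finset.Icc 1 (E2 κ X), y0 κ₁ X a e * sg1 e / e = 0) ∧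
    (∑ e ∈ Finset.Icc 1 (E2 κ X), y1 κ v X a e * sg1 e / e = 0) ∧
    ∀ θ : ℕ → ℝ,
      (∀ e, YT (PB κ v X) θ (y1 κ v X a) e ≠ 0 → 1 ≤ e ∧ (e : ℝ) ≤ (X : ℝ) ^ (1 / 2 + 5 / 2 * κ)) ∧
      ∑ e ∈ Finset.Icc 1 (E2 κ X), YT (PB κ v X) θ (y1 κ v X a) e * sg1 e / e = 0 := sorry

/-! ## O2: large conductors (helper31, with helper19's part D) -/

theorem o2_cross {G : ℝ → ℝ} {U c : ℝ} (hG : LSPO.GOK G U c) {B₀ : ℕ} (hB : U ≤ B₀) {κ v : ℝ}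
    (h0 : 0 < κ) (h1 : 1000 * κ ≤ v) (h2 : v ≤ 1 / 80) (h3 : κ ≤ 1 / 10000) :
    ∃ X₀ : ℕ, ∀ X : ℕ, X₀ ≤ X → ∀ N : ℕ, N.Prime → X ≤ 4 * N → N ≤ 8 * X →
    ∀ P : Finset ℕ, P ⊆ PB κ v X → ∀ θ : ℕ → ℝ, (∀ p ∈ P, |θ p| ≤ 1) →
    ∀ (Q : ℕ) (C : ℕ → ℝ), CK2 κ X Q C → (Q : ℝ) * (X : ℝ) ^ (v + κ) ≤ (X : ℝ) ^ (1 + 5 * κ) →
      |LSPO.ODg (CY P θ C) G (E2 κ X ^ 2) (Gs B₀ (E2 κ X)) N -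
        SMg (CY P θ C) G (om2 κ X) (E2 κ X ^ 2) (Gs B₀ (E2 κ X)) (2 * (B₀ + 1) * E2 κ X)
          (R2 κ X) N| ≤ (X : ℝ) ^ (-(20 * κ)) := sorry

theorem o2_quad {G : ℝ → ℝ} {U c : ℝ} (hG : LSPO.GOK G U c) {B₀ : ℕ} (hB : U ≤ B₀) {κ v : ℝ}
    (h0 : 0 < κ) (h1 : 1000 * κ ≤ v) (h2 : v ≤ 1 / 80) (h3 : κ ≤ 1 / 10000) :
    ∃ X₀ : ℕ, ∀ X : ℕ, X₀ ≤ X → ∀ N : ℕ, N.Prime → X ≤ 4 * N → N ≤ 8 * X →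
    ∀ P : Finset ℕ, P ⊆ PB κ v X → ∀ θ : ℕ → ℝ, (∀ p ∈ P, |θ p| ≤ 1) →
    ∀ (Q : ℕ) (C : ℕ → ℝ), CK2 κ X Q C →
      (Q : ℝ) * (X : ℝ) ^ (2 * (v + κ)) ≤ (X : ℝ) ^ (1 + 5 * κ) →
      |LSPO.ODg (CY P θ (CY P θ C)) G (E2 κ X ^ 2) (Gs B₀ (E2 κ X)) N -
        SMg (CY P θ (CY P θ C)) G (om2 κ X) (E2 κ X ^ 2) (Gs B₀ (E2 κ X))
          (2 * (B₀ + 1) * E2 κ X) (R2 κ X) N| ≤ (X : ℝ) ^ (-(20 * κ)) := sorry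

/-! ## CE: the character expansion and the windows (helper84, helper53) -/

/-- the expansion of Ramanujan sums in primitive characters -/
theorem ram_chr {R : ℕ} {s N : ℕ} (hs : ∀ c ∈ Finset.Icc 1 R, s.Coprime c)
    (hN : ∀ c ∈ Finset.Icc 1 R, N.Coprime c) (w : ℕ → ℝ) (m : ℕ) (g : ℤ) :
    ((∑ c ∈ Finset.Icc 1 R, w c * cc c (((s * m : ℕ) : ℤ) - g * N).natAbs : ℝ) : ℂ) =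
      ∑ ψ ∈ Chs R, ψ.2 (s : ZMod ψ.1) * conj (ψ.2 (N : ZMod ψ.1)) *
        ∑ c ∈ (Finset.Icc 1 R).filter (fun c => ψ.1 ∣ c), (w c : ℂ) * kap c ψ m g := sorry

/-- freezing at the centres of the windows, then the expansion: cross term -/
theorem frz_cross {G : ℝ → ℝ} {U c : ℝ} (hG : LSPO.GOK G U c) {B₀ : ℕ} (hB : U ≤ B₀) {κ v C₁ : ℝ}
    (h0 : 0 < κ) (h1 : 1000 * κ ≤ v) (h2 : v ≤ 1 / 80) :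
    ∃ X₀ : ℕ, ∀ X : ℕ, X₀ ≤ X → ∀ (J : ℕ) (dl : ℝ) (ε : (q : ℕ) → DirichletCharacter ℂ q → ℝ)
    (u : ℕ → ℕ → ℝ), Win κ v C₁ X J dl ε u → ∀ m : ℕ → ℝ,
    (∀ j, 0 ≤ m j ∧ m j ≤ dl / (v * Real.log X)) → ∀ θ : ℕ × ℕ → ℝ, (∀ z, |θ z| ≤ 1) →
    ∀ (N : ℕ) (Z : ℝ), N.Prime → (X : ℝ) / 2 ≤ Z → Z ≤ 4 * X →
    |Real.log ((N : ℝ) / Z)| ≤ (X : ℝ) ^ (-(132 * κ)) →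
    ∀ (Q : ℕ) (C : ℕ → ℝ), CK2 κ X Q C → (Q : ℝ) * (X : ℝ) ^ (v + κ) ≤ (X : ℝ) ^ (1 + 5 * κ) →
      |SMP G B₀ κ X (CY (PB κ v X) (thE J m u θ) C) N -
        (∑ ψ ∈ Chs (R2 κ X), conj (ψ.2 (N : ZMod ψ.1)) * ∑ j ∈ Finset.range J,
          (∑ p ∈ PB κ v X, ((m j * u j p * θ (j, p) : ℝ) : ℂ) * ψ.2 (p : ZMod ψ.1)) *
            KerP G B₀ κ X C ψ (Zj v X dl j) Z).re| ≤ (X : ℝ) ^ (-(20 * κ)) := sorry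

/-- freezing at the centres of the windows, then the expansion: quadratic term -/
theorem frz_quad {G : ℝ → ℝ} {U c : ℝ} (hG : LSPO.GOK G U c) {B₀ : ℕ} (hB : U ≤ B₀) {κ v C₁ : ℝ}
    (h0 : 0 < κ) (h1 : 1000 * κ ≤ v) (h2 : v ≤ 1 / 80) :
    ∃ X₀ : ℕ, ∀ X : ℕ, X₀ ≤ X → ∀ (J : ℕ) (dl : ℝ) (ε : (q : ℕ) → DirichletCharacter ℂ q → ℝ)
    (u : ℕ → ℕ → ℝ), Win κ v C₁ X J dl ε u → ∀ m : ℕ → ℝ,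
    (∀ j, 0 ≤ m j ∧ m j ≤ dl / (v * Real.log X)) → ∀ θ : ℕ × ℕ → ℝ, (∀ z, |θ z| ≤ 1) →
    ∀ (N : ℕ) (Z : ℝ), N.Prime → (X : ℝ) / 2 ≤ Z → Z ≤ 4 * X →
    |Real.log ((N : ℝ) / Z)| ≤ (X : ℝ) ^ (-(132 * κ)) →
    ∀ (Q : ℕ) (C : ℕ → ℝ), CK2 κ X Q C →
    (Q : ℝ) * (X : ℝ) ^ (2 * (v + κ)) ≤ (X : ℝ) ^ (1 + 5 * κ) →
      |SMP G B₀ κ X (CY (PB κ v X) (thE J m u θ) (CY (PB κ v X) (thE J m u θ) C)) N -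
        (∑ ψ ∈ Chs (R2 κ X), conj (ψ.2 (N : ZMod ψ.1)) * ∑ j ∈ Finset.range J,
          ∑ j' ∈ Finset.range J,
          (∑ p ∈ PB κ v X, ((m j * u j p * θ (j, p) : ℝ) : ℂ) * ψ.2 (p : ZMod ψ.1)) *
          (∑ p ∈ PB κ v X, ((m j' * u j' p * θ (j', p) : ℝ) : ℂ) * ψ.2 (p : ZMod ψ.1)) *
            KerP G B₀ κ X C ψ (Zj v X dl j * Zj v X dl j') Z).re| ≤ (X : ℝ) ^ (-(20 * κ)) := sorry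

/-- bounds and symmetries of the kernels -/
theorem kerp_bound {G : ℝ → ℝ} {U c : ℝ} (hG : LSPO.GOK G U c) {B₀ : ℕ} (hB : U ≤ B₀) {κ : ℝ}
    (h0 : 0 < κ) (h1 : κ ≤ 1 / 1000) : ∃ X₀ : ℕ, ∀ X : ℕ, X₀ ≤ X → ∀ (Q : ℕ) (C : ℕ → ℝ),
    CK2 κ X Q C → ∀ s Z : ℝ, 1 ≤ s → Q * s ≤ (X : ℝ) ^ (1 + 6 * κ) → (X : ℝ) / 2 ≤ Z →
    Z ≤ 4 * X → ∀ ψ ∈ Chs (R2 κ X), ‖KerP G B₀ κ X C ψ s Z‖ ≤ (X : ℝ) ^ (8 * κ) := sorry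

theorem kerp_cj (G : ℝ → ℝ) (B₀ : ℕ) (κ : ℝ) (X : ℕ) (C : ℕ → ℝ)
    (ψ : Σ q : ℕ, DirichletCharacter ℂ q) (s Z : ℝ) :
    KerP G B₀ κ X C ⟨ψ.1, ψ.2⁻¹⟩ s Z = conj (KerP G B₀ κ X C ψ s Z) := sorry

/-- the windows from `gal_band` (helper46) -/
theorem win_exists {c₁ : ℝ} (hc₁ : 0 < c₁) :
    ∃ C : ℝ, 1 ≤ C ∧ ∃ c : ℝ, 0 < c ∧ ∃ A : ℝ, 1000 ≤ A ∧ ∀ κ v : ℝ, 0 < κ → A * κ ≤ v → v ≤ 1 →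
    ∃ X₀ : ℕ, ∀ X : ℕ, X₀ ≤ X → GA.Good c₁ ⌊(X : ℝ) ^ (496 * κ)⌋₊ →
    ∃ (ε : (q : ℕ) → DirichletCharacter ℂ q → ℝ) (J : ℕ) (dl : ℝ) (u : ℕ → ℕ → ℝ),
      Win κ v C X J dl ε u ∧
      ∑ q ∈ Finset.Icc 1 ⌊(X : ℝ) ^ (496 * κ)⌋₊, ∑ χ ∈ Prm q, ε q χ ≤ C * Real.exp (-(c * v / κ)) ∧
      (∀ Z : ℝ, (X : ℝ) / 2 ≤ Z → Z ≤ 4 * X → ∃ (P : Finset ℕ) (w : ℕ → ℝ),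
        (∀ p ∈ P, p.Prime ∧ |Real.log ((p : ℝ) / Z)| ≤ (X : ℝ) ^ (-(132 * κ)) ∧ 0 < w p) ∧
        ∑ p ∈ P, w p = 1 ∧
        ∀ q ∈ Finset.Icc 1 ⌊(X : ℝ) ^ (496 * κ)⌋₊, ∀ χ ∈ Prm q,
          ‖∑ p ∈ P, ((w p : ℝ) : ℂ) * χ (p : ZMod q)‖ ≤ ε q χ) := sorry

/-! ## AD: the coefficients (helper46, helper53) -/

theorem adm2 : ∀ C₀ C₁ : ℕ, ∃ B : ℕ, ∀ B' : ℕ, ∀ κ v κ₁ : ℝ, 0 < κ → 1000 * κ ≤ v → v ≤ 1 / 80 →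
    0 < κ₁ → κ₁ ≤ κ → ∀ ε₂ : ℝ, 0 < ε₂ → ε₂ ≤ κ₁ / 100000 → ∃ X₀ : ℕ, ∀ X : ℕ, X₀ ≤ X →
    ∀ a : ℕ → ℝ, Sht (zz X) (KA ε₂ X) a →
    (∀ k : ℕ, |a k| * Real.sqrt k ≤ Real.log X ^ C₀ * tau k ^ C₁) →
      AdmB κ B B' X ⌊(X : ℝ) ^ (1 - v + 2 * κ)⌋₊ (CB (E2 κ X) (y0 κ₁ X a) (y1 κ v X a)) ∧
      AdmB κ B B' X ⌊(X : ℝ) ^ (1 - 2 * v + 3 * κ)⌋₊ (CB (E2 κ X) (y1 κ v X a) (y1 κ v X a)) := sorry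

/-! ## P2: the principal part (helper15) -/

theorem p2_main {T : ℝ} {ρ : ℝ → ℝ} (hρ : KerL T ρ) {B₀ : ℕ} (hB : 1 + T ^ 2 ≤ (B₀ : ℝ)) (B : ℕ) :
    ∃ B' : ℕ, ∀ κ v : ℝ, 0 < κ → 1000 * κ ≤ v → v ≤ 1 / 80 → ∀ δ : ℝ, 0 < δ →
    ∃ X₀ : ℕ, ∀ X : ℕ, X₀ ≤ X → ∀ (J : ℕ) (dl : ℝ), 0 < dl → dl ≤ (X : ℝ) ^ (-(136 * κ)) →
      J * dl ≤ κ * Real.log X → κ * Real.log X ≤ (J + 1) * dl → ∃ m : ℕ → ℝ,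
      (∀ j, 0 ≤ m j ∧ m j ≤ dl / (v * Real.log X)) ∧
      κ / (2 * v) ≤ ∑ j ∈ Finset.range J, m j ∧
      ∀ Z : ℝ, (X : ℝ) / 2 ≤ Z → Z ≤ 4 * X →
      (∀ (Q : ℕ) (C : ℕ → ℝ), (Q : ℝ) ≤ (X : ℝ) ^ (1 - v + 3 * κ) → AdmB κ B B' X Q C →
        |∑ j ∈ Finset.range J, m j * (PsiK C (GG ρ) (om2 κ X) (E2 κ X ^ 2) (Gs B₀ (E2 κ X))
          (2 * (B₀ + 1) * E2 κ X) (R2 κ X) ⟨1, 1⟩ (Zj v X dl j) Z).re| ≤ δ) ∧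
      (∀ (Q : ℕ) (C : ℕ → ℝ), (Q : ℝ) ≤ (X : ℝ) ^ (1 - 2 * v + 3 * κ) → AdmB κ B B' X Q C →
        |∑ j ∈ Finset.range J, ∑ j' ∈ Finset.range J, m j * m j' *
          (PsiK C (GG ρ) (om2 κ X) (E2 κ X ^ 2) (Gs B₀ (E2 κ X))
            (2 * (B₀ + 1) * E2 κ X) (R2 κ X) ⟨1, 1⟩ (Zj v X dl j * Zj v X dl j') Z).re| ≤ δ) := sorry

/-! ## M2: the main terms (helper71) -/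

/-- upper bound for the quadratic form -/
theorem m2_quad (C₀ : ℝ) {v : ℝ} (hv : 0 < v) (hv' : v ≤ 1 / 80) : ∃ C : ℝ, 1 ≤ C ∧
    ∀ {T : ℝ} {ρ : ℝ → ℝ}, KerL T ρ → ∀ {g : ℝ → ℝ}
    {G : ℝ}, Kg g G → (∀ u, 0 < u → ‖kh ρ u‖ ^ 2 + ‖kh ρ (-u)‖ ^ 2 ≤ g u) →
    ∫ u in Set.Ioi (0 : ℝ), g u ≤ 1 → ∀ κ κ₁ : ℝ, 0 < κ → 1000 * κ ≤ v →
    0 < κ₁ → κ₁ ≤ κ → ∃ ε₁ : ℝ, 0 < ε₁ ∧ ∀ ε₂ : ℝ, 0 < ε₂ → ε₂ ≤ ε₁ → ∃ X₀ : ℕ, ∀ X : ℕ, X₀ ≤ X →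
    ∀ a : ℕ → ℝ, Sht (zz X) (KA ε₂ X) a → cn (zz X) (KA ε₂ X) a ≤ C₀ →
    ∀ N : ℕ, X ≤ 4 * N → N ≤ 8 * X →
      sh ρ T (E2 κ X) (y0 κ₁ X a) N ≤ C ∧
      ∀ θ : ℕ → ℝ, (∀ p ∈ PB κ v X, |θ p| ≤ 1) →
        sh ρ T (E2 κ X) (YT (PB κ v X) θ (y1 κ v X a)) N ≤
          C * ∑ p ∈ PB κ v X, θ p ^ 2 / p + (X : ℝ) ^ (-(20 * κ)) := sorry

/-- the cross term is smooth in the prime -/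
theorem m2_cross {T : ℝ} {ρ : ℝ → ℝ} (hρ : KerL T ρ) (C₀ : ℝ) (κ v κ₁ : ℝ) (h0 : 0 < κ)
    (h1 : 1000 * κ ≤ v) (h2 : v ≤ 1 / 80) (h3 : 0 < κ₁) (h4 : κ₁ ≤ κ) : ∃ ε₁ : ℝ, 0 < ε₁ ∧
    ∀ ε₂ : ℝ, 0 < ε₂ → ε₂ ≤ ε₁ → ∃ X₀ : ℕ, ∀ X : ℕ, X₀ ≤ X →
    ∀ a : ℕ → ℝ, Sht (zz X) (KA ε₂ X) a → cn (zz X) (KA ε₂ X) a ≤ C₀ →
    ∀ N : ℕ, X ≤ 4 * N → N ≤ 8 * X → ∃ S : ℝ → ℝ,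
      (∀ s t, |S s - S t| ≤ (X : ℝ) ^ (10 * κ) * |s - t|) ∧
      ∀ θ : ℕ → ℝ, (∀ p ∈ PB κ v X, |θ p| ≤ 1) →
        |shB ρ T (E2 κ X) (y0 κ₁ X a) (YT (PB κ v X) θ (y1 κ v X a)) N -
          ∑ p ∈ PB κ v X, θ p / p * S (Real.log p)| ≤ (X : ℝ) ^ (-(20 * κ)) := sorry

/-- the main term -/
theorem m2_main (C₀ : ℝ) {v : ℝ} (hv : 0 < v) (hv' : v ≤ 1 / 80) : ∃ C : ℝ, 1 ≤ C ∧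
    ∀ {T : ℝ} {ρ : ℝ → ℝ}, KerL T ρ → ∀ {g : ℝ → ℝ}
    {G : ℝ}, Kg g G → (∀ u, 0 < u → ‖kh ρ u‖ ^ 2 + ‖kh ρ (-u)‖ ^ 2 ≤ g u) →
    ∫ u in Set.Ioi (0 : ℝ), g u ≤ 1 → ∀ κ κ₁ : ℝ, 0 < κ → 1000 * κ ≤ v →
    0 < κ₁ → κ₁ ≤ κ → ∀ ε : ℝ, 0 < ε →
    ∃ ε₁ : ℝ, 0 < ε₁ ∧ ∀ ε₂ : ℝ, 0 < ε₂ → ε₂ ≤ ε₁ → ∃ X₀ : ℕ, ∀ X : ℕ, X₀ ≤ X →
    ∀ a : ℕ → ℝ, Sht (zz X) (KA ε₂ X) a → cn (zz X) (KA ε₂ X) a ≤ C₀ →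
    ∀ N : ℕ, X ≤ 4 * N → N ≤ 8 * X →
    ∀ θ : ℕ → ℝ, (∀ p ∈ PB κ v X, 0 ≤ θ p ∧ θ p ≤ 1) → ∀ t : ℝ, 0 ≤ t → t ≤ 1 →
      sh ρ T (E2 κ X) (x2 κ v κ₁ t X θ a) N ≤
        (4 * ell κ v t X θ ^ 2 - 8 * t * κ * ∑ p ∈ PB κ v X, θ p / p +
          C * (κ₁ + ((∫ u in Set.Ioi (0 : ℝ), g u) - 1 / Real.pi)) +
          C * t ^ 2 * ∑ p ∈ PB κ v X, θ p / p) * cn (zz X) (KA ε₂ X) a + ε := sorry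

/-- the coefficients for smooth `m` -/
theorem ww_x2 {κ v κ₁ ε₂ : ℝ} (h0 : 0 < κ) (h1 : 1000 * κ ≤ v) (h2 : v ≤ 1 / 80) (h3 : 0 < κ₁)
    (h4 : κ₁ ≤ κ) (h5 : 0 < ε₂) (h6 : ε₂ ≤ κ₁ / 1000) : ∃ X₀ : ℕ, ∀ X : ℕ, X₀ ≤ X →
    ∀ a : ℕ → ℝ, Sht (zz X) (KA ε₂ X) a → ∀ (θ : ℕ → ℝ) (t : ℝ) (m : ℕ), smooth (zz X) m → 1 ≤ m →
      (m : ℝ) < (X : ℝ) ^ v / 2 →
      WW (E2 κ X) (wX (E2 κ X) (x2 κ v κ₁ t X θ a)) m = ell κ v t X θ * Ph (KA ε₂ X) a m := sorry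

/-! ## B: the off-diagonal of every prime level (helper14, helper53) -/

theorem arith2 {c₁ : ℝ} (hc₁ : 0 < c₁) (C₀ : ℝ) {v : ℝ} (hv : 0 < v) (hv' : v ≤ 1 / 80) :
    ∃ C : ℝ, 1 ≤ C ∧ ∃ c : ℝ, 0 < c ∧ ∃ A : ℝ, 1000 ≤ A ∧
    ∀ κ κ₁ : ℝ, 0 < κ → A * κ ≤ v → 0 < κ₁ → κ₁ ≤ κ →
    ∀ {T : ℝ} {ρ : ℝ → ℝ}, KerL T ρ → ∀ {g : ℝ → ℝ} {G : ℝ}, Kg g G →
    (∀ u, 0 < u → ‖kh ρ u‖ ^ 2 + ‖kh ρ (-u)‖ ^ 2 ≤ g u) → ∫ u in Set.Ioi (0 : ℝ), g u ≤ 1 →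
    ∀ {B₀ : ℕ}, 1 + T ^ 2 ≤ (B₀ : ℝ) → ∀ C₂ C₃ : ℕ, ∀ δ : ℝ, 0 < δ →
    ∃ ε₁ : ℝ, 0 < ε₁ ∧ ∀ ε₂ : ℝ, 0 < ε₂ → ε₂ ≤ ε₁ → ∃ X₀ : ℕ, ∀ X : ℕ, X₀ ≤ X →
    GA.Good c₁ ⌊(X : ℝ) ^ (496 * κ)⌋₊ → ∃ θ : ℕ → ℝ, (∀ p ∈ PB κ v X, 0 ≤ θ p ∧ θ p ≤ 1) ∧
    κ / (C * v) ≤ ∑ p ∈ PB κ v X, θ p / p ∧ ∑ p ∈ PB κ v X, θ p / p ≤ κ / v ∧
    ∀ a : ℕ → ℝ, Sht (zz X) (KA ε₂ X) a → cn (zz X) (KA ε₂ X) a ≤ C₀ →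
    (∀ k : ℕ, |a k| * Real.sqrt k ≤ Real.log X ^ C₂ * tau k ^ C₃) →
    ∀ N : ℕ, N.Prime → X ≤ 2 * N → N ≤ 4 * X → ∀ t : ℝ, 0 ≤ t → t ≤ 1 →
      OD ρ B₀ (E2 κ X) (x2 κ v κ₁ t X θ a) N ≤ C * t * Real.exp (-(c * v / κ)) + δ := sorry

/-! ## F2: the conclusion (helper68) -/

/-- at EVERY prime level of a clean range more than half of the central values are large -/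
theorem level2 {c₁ : ℝ} (hc₁ : 0 < c₁) : ∃ κ c : ℝ, 0 < κ ∧ 0 < c ∧ ∀ D : ℝ, 1 / 2 < D →
    ∃ X₀ : ℕ, ∀ X : ℕ, X₀ ≤ X → GA.Good c₁ ⌊(X : ℝ) ^ κ⌋₊ →
    ∀ (N : ℕ) [Fact N.Prime], X ≤ 2 * N → N ≤ 4 * X →
      (1 / 2 + c) * (N / 24) ≤
        ({f : S2 N | (IsNew f ∧ co f N = 1) ∧ 1 / Real.log N ^ D ≤ ‖Lh f‖}.ncard : ℝ) := sorry

end Pool.Agent.LSP
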